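import Pool.Agent.H66.FA.T

/-!
# Left-invariant Finsler metrics on almost abelian groups: row STA
-/

set_option autoImplicit false

open Matrix

namespace Pool.Agent.H79.FA

open Pool.Agent.H63.Fins MeasureTheory Filter Topology Pool.Agent.H66.FA

/-- the first coordinate of the vector field -/
noncomputable def Ph {m : ℕ} (B : V (m + 1) →L[ℝ] V (m + 1)) (L : V (m + 1) → ℝ)
    (z : V (m + 1)) : ℝ :=
  ∑ j, gi L 0 j z * ((ee j : V (m + 1)) 0 * d1 L z (B z) - z 0 * d1 L z (B (ee j)))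

theorem Ph_eq (h1 : T_EUL) (h2 : T_REG) {m : ℕ} (B : V (m + 1) →L[ℝ] V (m + 1))
    (L : V (m + 1) → ℝ) (hL : IsML L) (z ξ : V (m + 1)) (hz : z ≠ 0)
    (h : ∀ u, d2 L z ξ u = u 0 * d1 L z (B z) - z 0 * d1 L z (B u)) : ξ 0 = Ph B L z := by
  obtain ⟨-, -, -, -, -, -, hder⟩ := h2 _ L hL
  obtain ⟨-, -, -, hdd, hdot⟩ := hder z hz
  have hsym := (h1 _ L hL z hz).2.2.1
  have hr : ∀ j, (gm L z *ᵥ ξ) j =
      (ee j : V (m + 1)) 0 * d1 L z (B z) - z 0 * d1 L z (B (ee j)) := by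
    intro j
    rw [← h (ee j), hsym ξ (ee j), hdot (ee j) ξ]
    unfold ee
    simp [dotProduct, Pi.single_apply]
  have hu : IsUnit (gm L z).det := isUnit_iff_ne_zero.2 (by
    have := hdd
    unfold DD at this
    exact this.ne')
  have hx : ξ = (gm L z)⁻¹ *ᵥ (gm L z *ᵥ ξ) := by
    rw [mulVec_mulVec, nonsing_inv_mul _ hu, one_mulVec]
  have h3 : ξ 0 = ((gm L z)⁻¹ *ᵥ (gm L z *ᵥ ξ)) 0 := congrFun hx 0
  rw [h3]
  unfold Ph gi
  show ∑ j, (gm L z)⁻¹ 0 j * (gm L z *ᵥ ξ) j = _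
  exact Finset.sum_congr rfl fun j _ => by rw [hr j]

theorem pf_STA (h1 : T_EUL) (h2 : T_REG) (h3 : T_CPT) (h4 : T_MOM) : T_STA := by
  intro m B E L hL hE y hy
  have hy0 : y ≠ 0 := by rintro rfl; simp at hy
  have hc : 0 < L y := (h1 _ L hL y hy0).2.2.2.1
  obtain ⟨-, hd1, -, -, -, hgi, hder⟩ := h2 _ L hL
  have hK := (h3 _ L hL).2 (L y) hc
  have hne : ∀ z : V (m + 1), L z = L y → z ≠ 0 := by
    rintro z hz rfl
    rw [hL.zero] at hz
    linarith
  have hΦ : ContinuousOn (Ph B L) {z | L z = L y} := by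
    unfold Ph
    refine continuousOn_finset_sum _ fun j _ => ?_
    refine ((hgi 0 j).continuousOn.mono fun z hz => hne z hz).mul ?_
    refine (continuousOn_const.mul ?_).sub ((continuous_apply 0).continuousOn.mul ?_)
    · exact hd1.comp (f := fun z : V (m + 1) => (z, B z))
        (continuous_id.prodMk B.continuous).continuousOn fun z hz => hne z hz
    · exact hd1.comp (f := fun z : V (m + 1) => (z, B (ee j)))
        (continuous_id.prodMk continuous_const).continuousOn fun z hz => hne z hz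
  obtain ⟨C, hC⟩ := hK.exists_bound_of_continuousOn hΦ
  set D : ℝ := max C 1 with hD
  have hD0 : 0 < D := lt_of_lt_of_le one_pos (le_max_right _ _)
  refine ⟨y 0 / (2 * D), y 0 / (2 * D) * (y 0 / 2), by positivity, by positivity, ?_⟩
  intro γ T hγ hγ0 hT
  set t1 : ℝ := y 0 / (2 * D) with ht1
  have ht1p : 0 < t1 := by positivity
  have hlev : ∀ t ∈ Set.Icc (0 : ℝ) t1, L (γ t) = L y := fun t ht => by
    rw [(h4 m B E L hL hE γ T hγ t ⟨ht.1, by linarith [ht.2]⟩).1, hγ0]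
  have hder2 : ∀ t ∈ Set.Icc (0 : ℝ) t1, ∃ d : ℝ, |d| ≤ D ∧
      HasDerivAt (fun s => γ s 0) d t := by
    intro t ht
    obtain ⟨hg, ξ, hξ, hξ2⟩ := hγ t ⟨by linarith [ht.1], by linarith [ht.2]⟩
    refine ⟨ξ 0, ?_, (hasDerivAt_pi.1 hξ) 0⟩
    rw [Ph_eq h1 h2 B L hL (γ t) ξ hg hξ2]
    exact (hC (γ t) (hlev t ht)).trans (le_max_left _ _)
  choose! d hdb hdd using hder2
  have hcont : ContinuousOn (fun s => γ s 0) (Set.Icc 0 t1) := fun t ht =>
    (hdd t ht).continuousAt.continuousWithinAt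
  have hlow : ∀ t ∈ Set.Icc (0 : ℝ) t1, y 0 / 2 ≤ γ t 0 := by
    intro t ht
    have h5 := (convex_Icc (0 : ℝ) t1).norm_image_sub_le_of_norm_hasDerivWithin_le
      (f := fun s => γ s 0) (f' := d) (C := D) (x := 0) (y := t)
      (fun s hs => (hdd s hs).hasDerivWithinAt) (fun s hs => hdb s hs)
      ⟨le_rfl, ht1p.le⟩ ht
    rw [Real.norm_eq_abs, Real.norm_eq_abs, hγ0, sub_zero, abs_of_nonneg ht.1] at h5
    have h6 := (abs_le.1 h5).1
    have h7 : D * t ≤ y 0 / 2 := by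
      calc D * t ≤ D * t1 := mul_le_mul_of_nonneg_left ht.2 hD0.le
        _ = y 0 / 2 := by rw [ht1]; field_simp
    linarith
  have hint : IntervalIntegrable (fun s => γ s 0) volume 0 t1 :=
    hcont.intervalIntegrable_of_Icc ht1p.le
  calc t1 * (y 0 / 2) = ∫ _ in (0 : ℝ)..t1, y 0 / 2 := by
        rw [intervalIntegral.integral_const, smul_eq_mul, sub_zero]
    _ ≤ ∫ s in (0 : ℝ)..t1, γ s 0 :=
        intervalIntegral.integral_mono_on ht1p.le intervalIntegrable_const hint hlow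

end Pool.Agent.H79.FA
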